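import Pool.Agent.Y347.CO.Stm2

/-!
# A large family which is closed under all self-dual operations and not good
-/

set_option autoImplicit false

namespace Pool.Agent.Y977.CO

open Finset Function Pool.Agent.Y347.CO

variable {d m : ℕ}

/-- the even diagonal points -/
def xe (d : ℕ) {m : ℕ} (j : Fin m) : Fin d → Fin (2 * m) := fun _ => ⟨2 * j.1, by omega⟩

/-- the odd diagonal points -/
def xo (d : ℕ) {m : ℕ} (j : Fin m) : Fin d → Fin (2 * m) := fun _ => ⟨2 * j.1 + 1, by omega⟩

theorem xe_inj (hd : 1 ≤ d) {i j : Fin m} (h : xe d i = xe d j) : i = j := by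
  have h1 := congrArg Fin.val (congrFun h ⟨0, hd⟩)
  simp only [xe] at h1
  apply Fin.ext
  omega

theorem xo_ne_xe (hd : 1 ≤ d) (i j : Fin m) : xo d i ≠ xe d j := by
  intro h
  have h1 := congrArg Fin.val (congrFun h ⟨0, hd⟩)
  simp only [xo, xe] at h1
  omega

/-- the family -/
def SS (d m : ℕ) : Finset (Finset (Fin d → Fin (2 * m))) :=
  univ.filter fun A => ∀ j : Fin m, (xe d j ∈ A ↔ xo d j ∉ A)

theorem mem_SS {A : Finset (Fin d → Fin (2 * m))} :
    A ∈ SS d m ↔ ∀ j : Fin m, (xe d j ∈ A ↔ xo d j ∉ A) := by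
  unfold SS
  rw [mem_filter]
  exact ⟨fun h => h.2, fun h => ⟨mem_univ _, h⟩⟩

theorem not_good : ¬ Good (SS d m) := by
  rintro ⟨A, hA, γ, ⟨i, hi⟩, hdis, hB⟩
  rw [mem_SS] at hA hB
  have hdiag : (fun _ : Fin d => i) ∈ Fintype.piFinset (fun _ : Fin d => γ) := by
    rw [Fintype.mem_piFinset]
    exact fun _ => hi
  have hnot : (fun _ : Fin d => i) ∉ A := fun h => (Finset.disjoint_left.1 hdis h) hdiag
  have hj : i.1 / 2 < m := by have := i.2; omega
  set j : Fin m := ⟨i.1 / 2, hj⟩ with hjdef
  have hAj := hA j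
  have hBj := hB j
  rw [mem_union, mem_union] at hBj
  rcases Nat.even_or_odd i.1 with he | ho
  · have e : xe d j = fun _ => i := by
      funext _
      apply Fin.ext
      show 2 * (i.1 / 2) = i.1
      obtain ⟨a, ha⟩ := he
      omega
    rw [e] at hAj hBj
    tauto
  · have e : xo d j = fun _ => i := by
      funext _
      apply Fin.ext
      show 2 * (i.1 / 2) + 1 = i.1
      obtain ⟨a, ha⟩ := ho
      omega
    rw [e] at hAj hBj
    tauto

theorem closed (k : ℕ) (f : (Fin k → Bool) → Bool) (hf : ∀ v, f (fun l => !(v l)) = !(f v)) :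
    ClosedF (SS d m) f := by
  intro a ha
  rw [mem_SS]
  intro j
  rw [mem_filter, mem_filter]
  have h1 : (fun l => decide (xo d j ∈ a l)) = fun l => !(decide (xe d j ∈ a l)) := by
    funext l
    have h2 := (mem_SS.1 (ha l)) j
    by_cases h3 : xo d j ∈ a l
    · have h4 : xe d j ∉ a l := fun h => (h2.1 h) h3
      simp [h3, h4]
    · have h4 : xe d j ∈ a l := h2.2 h3
      simp [h3, h4]
  rw [h1, hf]
  cases f (fun l => decide (xe d j ∈ a l)) <;> simp

/-- the indices of the pairs which are not separated -/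
def TT (B : Finset (Fin d → Fin (2 * m))) : Finset (Fin m) :=
  univ.filter fun j => (xe d j ∈ B ↔ xo d j ∈ B)

theorem mem_TT {B : Finset (Fin d → Fin (2 * m))} {j : Fin m} :
    j ∈ TT B ↔ (xe d j ∈ B ↔ xo d j ∈ B) := by
  unfold TT
  rw [mem_filter]
  exact ⟨fun h => h.2, fun h => ⟨mem_univ _, h⟩⟩

theorem count (hd : 1 ≤ d) : (SS d m).card * 2 ^ m = 2 ^ ((2 * m) ^ d) := by
  classical
  have hmaps : Set.MapsTo (TT (d := d) (m := m))
      ((univ : Finset (Finset (Fin d → Fin (2 * m)))) : Set _) ((univ : Finset (Finset (Fin m))) : Set _) :=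
    fun _ _ => by simp
  have h1 := card_eq_sum_card_fiberwise hmaps
  have h2 : ∀ T ∈ (univ : Finset (Finset (Fin m))),
      (univ.filter fun B : Finset (Fin d → Fin (2 * m)) => TT B = T).card = (SS d m).card := by
    intro T _
    have he : ∀ j : Fin m, xe d j ∈ T.image (xe d) ↔ j ∈ T := by
      intro j
      rw [mem_image]
      constructor
      · rintro ⟨i, hi, hij⟩
        rwa [← xe_inj hd hij]
      · intro hj
        exact ⟨j, hj, rfl⟩
    have ho : ∀ j : Fin m, xo d j ∉ T.image (xe d) := by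
      intro j h
      rw [mem_image] at h
      obtain ⟨i, -, hi⟩ := h
      exact xo_ne_xe hd j i hi.symm
    refine card_nbij' (fun B => symmDiff B (T.image (xe d))) (fun B => symmDiff B (T.image (xe d))) ?_ ?_ ?_ ?_
    · intro B hB
      rw [Finset.mem_coe, mem_filter] at hB
      rw [Finset.mem_coe, mem_SS]
      intro j
      have h3 : j ∈ T ↔ (xe d j ∈ B ↔ xo d j ∈ B) := by rw [← hB.2, mem_TT]
      rw [mem_symmDiff, mem_symmDiff, he]
      have := ho j
      tauto
    · intro B hB
      rw [Finset.mem_coe, mem_SS] at hB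
      rw [Finset.mem_coe, mem_filter]
      refine ⟨mem_univ _, ?_⟩
      ext j
      rw [mem_TT, mem_symmDiff, mem_symmDiff, he]
      have := ho j
      have := hB j
      tauto
    · intro B _
      exact symmDiff_symmDiff_cancel_right _ _
    · intro B _
      exact symmDiff_symmDiff_cancel_right _ _
  rw [sum_congr rfl h2, sum_const, card_univ, card_univ, Fintype.card_finset, Fintype.card_finset,
    Fintype.card_fin, Fintype.card_fun, Fintype.card_fin, Fintype.card_fin, smul_eq_mul] at h1
  rw [h1, mul_comm]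

theorem done : Pool.Agent.Y347.CO.S_SELF :=
  fun d m hd => ⟨SS d m, not_good, closed, count hd⟩

end Pool.Agent.Y977.CO
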